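import Pool.Agent.helper71.FT.Spec

/-!
# Row ft:PGN (MP_07c750_an, project FT): number of visits against time
-/

open scoped MatrixGroups ContDiff Topology UpperHalfPlane ComplexConjugate
open UpperHalfPlane MeasureTheory Filter Set

set_option autoImplicit false

namespace Pool.Agent.FT

open Pool.Agent.RS
open Pool.Agent.EN (XG MG mkX mkM fl pr)

/-- intervals around points near different integers of a residue class modulo `11` -/
theorem PGN_cnt (D : Set ℝ) (n : ℕ) (η : ℝ) (hη : 0 < η) (hη1 : η ≤ 1) (hD : D ⊆ Icc (0 : ℝ) n)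
    (S : Finset ℕ) (t : ℕ → ℝ) (ht : ∀ i ∈ S, |t i - i| ≤ 4) (hI : ∀ i ∈ S, Icc (t i - η) (t i + η) ⊆ D) :
    2 * η * (S.card : ℝ) ≤ 11 * volume.real D := by
  have hfin : volume D ≠ ⊤ := ((measure_mono hD).trans_lt measure_Icc_lt_top).ne
  have h1 : ∀ r ∈ Finset.range 11, 2 * η * ((S.filter fun i => i % 11 = r).card : ℝ) ≤ volume.real D := by
    intro r _
    set R := S.filter fun i => i % 11 = r with hR
    have hdis : (R : Set ℕ).PairwiseDisjoint fun i => Icc (t i - η) (t i + η) := by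
      intro i hi j hj hij
      have hi' := Finset.mem_filter.1 (Finset.mem_coe.1 hi)
      have hj' := Finset.mem_filter.1 (Finset.mem_coe.1 hj)
      refine Set.disjoint_left.2 fun x hx hx' => ?_
      have a1 := abs_le.1 (ht i hi'.1)
      have a2 := abs_le.1 (ht j hj'.1)
      rcases lt_or_gt_of_ne hij with h | h
      · have h5 : i + 11 ≤ j := by omega
        have h6 : (i : ℝ) + 11 ≤ j := by exact_mod_cast h5
        linarith [hx.1, hx.2, hx'.1, hx'.2]
      · have h5 : j + 11 ≤ i := by omega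
        have h6 : (j : ℝ) + 11 ≤ i := by exact_mod_cast h5
        linarith [hx.1, hx.2, hx'.1, hx'.2]
    have h2 : volume.real (⋃ i ∈ R, Icc (t i - η) (t i + η)) = ∑ i ∈ R, volume.real (Icc (t i - η) (t i + η)) :=
      measureReal_biUnion_finset hdis (fun i _ => measurableSet_Icc) (fun i _ => measure_Icc_lt_top.ne)
    have h3 : ∀ i ∈ R, volume.real (Icc (t i - η) (t i + η)) = 2 * η := by
      intro i _
      rw [Real.volume_real_Icc_of_le (by linarith)]
      ring
    rw [Finset.sum_congr rfl h3, Finset.sum_const, nsmul_eq_mul] at h2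
    have h4 : volume.real (⋃ i ∈ R, Icc (t i - η) (t i + η)) ≤ volume.real D := by
      refine measureReal_mono ?_ hfin
      refine Set.iUnion₂_subset fun i hi => hI i (Finset.mem_filter.1 hi).1
    rw [h2] at h4
    linarith
  have h5 : S.card = ∑ r ∈ Finset.range 11, (S.filter fun i => i % 11 = r).card :=
    Finset.card_eq_sum_card_fiberwise fun i _ => Finset.mem_coe.2 (Finset.mem_range.2 (Nat.mod_lt _ (by norm_num)))
  rw [h5]
  push_cast
  rw [Finset.mul_sum]
  calc ∑ r ∈ Finset.range 11, 2 * η * ((S.filter fun i => i % 11 = r).card : ℝ)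
      ≤ ∑ r ∈ Finset.range 11, volume.real D := Finset.sum_le_sum h1
    _ = 11 * volume.real D := by
      rw [Finset.sum_const, Finset.card_range, nsmul_eq_mul]
      norm_num

theorem PGN_proof (hXFL : EN.XFL_stmt) : PGN_stmt := by
  classical
  intro Γ O _ hO hOne
  obtain ⟨hfl, -, -, -, -, -, -, -, hmk, -⟩ := hXFL Γ
  obtain ⟨y0, hy0⟩ := hOne
  have h1 : IsOpen ((fun q : ℝ × XG Γ => fl Γ q.1 q.2) ⁻¹' O) := hO.preimage hfl.cont
  have h2 : ((0 : ℝ), y0) ∈ ((fun q : ℝ × XG Γ => fl Γ q.1 q.2) ⁻¹' O) := by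
    show fl Γ 0 y0 ∈ O
    rw [hfl.zero]
    exact hy0
  obtain ⟨U, V, hU, hV, hU0, hVy, hUV⟩ := isOpen_prod_iff.1 h1 0 y0 h2
  obtain ⟨ε, hε, hεU⟩ := Metric.isOpen_iff.1 hU 0 hU0
  set η : ℝ := min (ε / 2) 1 with hηd
  have hη : 0 < η := lt_min (by linarith) one_pos
  have hη1 : η ≤ 1 := min_le_right _ _
  have hηε : η < ε := (min_le_left _ _).trans_lt (by linarith)
  refine ⟨V, max 10 (11 / (2 * η)), hV, ⟨y0, hVy⟩, le_max_of_le_left (by norm_num), ?_⟩
  intro n g S hS
  set D : Set ℝ := {t : ℝ | t ∈ Icc (0 : ℝ) n ∧ fl Γ t (mkX Γ g) ∈ O} with hDd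
  set S' : Finset ℕ := S.filter fun i => 5 ≤ i ∧ i + 5 ≤ n with hS'd
  have hch : ∀ i : ℕ, ∃ t : ℝ, i ∈ S' → |t - i| ≤ 4 ∧ Icc (t - η) (t + η) ⊆ D := by
    intro i
    by_cases hi : i ∈ S'
    · obtain ⟨hiS, h5, h6⟩ := Finset.mem_filter.1 hi
      obtain ⟨-, s, hs, hsV⟩ := hS i hiS
      refine ⟨(i : ℝ) + s, fun _ => ⟨by rw [add_sub_cancel_left]; exact hs, ?_⟩⟩
      intro t ht
      have hs' := abs_le.1 hs
      have h7 : (5 : ℝ) ≤ i := by exact_mod_cast h5
      have h8 : (i : ℝ) + 5 ≤ n := by exact_mod_cast h6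
      have ht1 := ht.1
      have ht2 := ht.2
      refine ⟨⟨by linarith, by linarith⟩, ?_⟩
      have h9 : fl Γ (s + i) (mkX Γ g) ∈ V := by
        rw [hfl.add, hmk, hmk]
        exact hsV
      have h10 : fl Γ t (mkX Γ g) = fl Γ (t - (s + i)) (fl Γ (s + i) (mkX Γ g)) := by
        rw [← hfl.add, sub_add_cancel]
      rw [h10]
      have h11 : (t - (s + i), fl Γ (s + i) (mkX Γ g)) ∈ U ×ˢ V := by
        refine ⟨hεU ?_, h9⟩
        rw [Metric.mem_ball, Real.dist_eq, sub_zero, abs_lt]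
        constructor <;> linarith
      have h12 := Set.mem_preimage.1 (hUV h11)
      exact h12
    · refine ⟨0, fun h => ?_⟩
      exact (hi h).elim
  choose t ht using hch
  have h3 := PGN_cnt D n η hη hη1 (fun x hx => hx.1) S' t (fun i hi => (ht i hi).1) (fun i hi => (ht i hi).2)
  have h4 : S.card ≤ S'.card + 10 := by
    have h5 : S ⊆ S' ∪ (Finset.range 5 ∪ Finset.Ico (n - 4) n) := by
      intro i hi
      have h6 := (hS i hi).1
      by_cases h7 : 5 ≤ i ∧ i + 5 ≤ n
      · exact Finset.mem_union_left _ (Finset.mem_filter.2 ⟨hi, h7⟩)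
      · refine Finset.mem_union_right _ ?_
        rw [Finset.mem_union, Finset.mem_range, Finset.mem_Ico]
        omega
    have h6 := Finset.card_le_card h5
    have h7 := Finset.card_union_le S' (Finset.range 5 ∪ Finset.Ico (n - 4) n)
    have h8 := Finset.card_union_le (Finset.range 5) (Finset.Ico (n - 4) n)
    rw [Finset.card_range, Nat.card_Ico] at h8
    omega
  have h5 : (S.card : ℝ) ≤ S'.card + 10 := by exact_mod_cast h4
  have h6 : (S'.card : ℝ) ≤ 11 / (2 * η) * volume.real D := by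
    rw [div_mul_eq_mul_div, le_div_iff₀ (by linarith)]
    linarith
  have hDn : 0 ≤ volume.real D := measureReal_nonneg
  have h7 : 11 / (2 * η) * volume.real D ≤ max 10 (11 / (2 * η)) * volume.real D :=
    mul_le_mul_of_nonneg_right (le_max_right _ _) hDn
  have h8 : (10 : ℝ) ≤ max 10 (11 / (2 * η)) := le_max_left _ _
  rw [mul_add, mul_one]
  linarith

end Pool.Agent.FT
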